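import Mathlib
import Pool.Agent.W229.HD.Stm

/-!
Project HD (helper229): S_UNIQ, uniqueness of the smooth solutions of the decimated equations.

The difference `w` of two solutions satisfies `w'(k) = -λ w(k) + h(k)`, `λ = ν |k|^(2α)`, where
`‖h(k)‖ ≤ |k| M K` if `‖w(l)‖ ≤ M` for all `l`. Duhamel's formula gives `‖w(k)‖ ≤ M / 2` on short
intervals of time.
-/

set_option autoImplicit false

open MeasureTheory Set Filter Topology

namespace Pool.Agent.W790.HD

open Pool.Agent.W229.HD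

theorem norm_dt_le (v w : E3) : ‖dt v w‖ ≤ ‖v‖ * ‖w‖ := by
  unfold dt
  calc ‖∑ j, v j * w j‖ ≤ ∑ j, ‖v j * w j‖ := norm_sum_le _ _
    _ = ∑ j, ‖v j‖ * ‖w j‖ := by simp only [norm_mul]
    _ ≤ Real.sqrt (∑ j, ‖v j‖ ^ 2) * Real.sqrt (∑ j, ‖w j‖ ^ 2) :=
      Real.sum_mul_le_sqrt_mul_sqrt _ _ _
    _ = ‖v‖ * ‖w‖ := by rw [EuclideanSpace.norm_eq, EuclideanSpace.norm_eq]

theorem norm_kc (k : K3) : ‖kc k‖ = nm k := by
  rw [EuclideanSpace.norm_eq]
  unfold nm kc
  congr 1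
  refine Finset.sum_congr rfl fun j _ => ?_
  simp

theorem nm_nonneg (k : K3) : 0 ≤ nm k := Real.sqrt_nonneg _

theorem one_le_nm {k : K3} (hk : k ≠ 0) : 1 ≤ nm k := by
  have h1 : ∃ j, k j ≠ 0 := by
    by_contra h
    push Not at h
    exact hk (funext h)
  obtain ⟨j, hj⟩ := h1
  unfold nm
  rw [Real.one_le_sqrt]
  have h2 : (1 : ℝ) ≤ (k j : ℝ) ^ 2 := by
    have : (1 : ℤ) ≤ k j ^ 2 := by
      have := sq_pos_of_ne_zero hj
      omega
    exact_mod_cast this
  exact h2.trans (Finset.single_le_sum (f := fun j => (k j : ℝ) ^ 2)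
    (fun i _ => sq_nonneg _) (Finset.mem_univ j))

theorem dt_comm (v w : E3) : dt v w = dt w v := by
  unfold dt
  exact Finset.sum_congr rfl fun j _ => mul_comm _ _

theorem dt_kc_sub (v : E3) (k l : K3) : dt v (kc (k - l)) = dt v (kc k) - dt v (kc l) := by
  unfold dt kc
  rw [← Finset.sum_sub_distrib]
  refine Finset.sum_congr rfl fun j _ => ?_
  simp
  ring

theorem dt_sub_left (v w u : E3) : dt (v - w) u = dt v u - dt w u := by
  unfold dt
  rw [← Finset.sum_sub_distrib]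
  refine Finset.sum_congr rfl fun j _ => ?_
  simp
  ring

theorem nl_eq {a : K3 → E3} (ha : ∀ l, dt (kc l) (a l) = 0) (k : K3) :
    nl a k = ∑' l : K3, (Complex.I * dt (a l) (kc k)) • a (k - l) := by
  unfold nl
  refine tsum_congr fun l => ?_
  rw [dt_kc_sub, dt_comm (a l) (kc l), ha, sub_zero]

theorem summ {a : K3 → E3} (hs : Summable fun l => ‖a l‖) (k : K3) :
    Summable fun l : K3 => (Complex.I * dt (a l) (kc k)) • a (k - l) := by
  refine Summable.of_norm_bounded (g := fun l => nm k * (∑' l, ‖a l‖) * ‖a l‖)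
    (hs.mul_left _) fun l => ?_
  rw [norm_smul, norm_mul, Complex.norm_I, one_mul]
  have h1 : ‖a (k - l)‖ ≤ ∑' l, ‖a l‖ := hs.le_tsum _ fun _ _ => norm_nonneg _
  have h2 := norm_dt_le (a l) (kc k)
  rw [norm_kc] at h2
  calc ‖dt (a l) (kc k)‖ * ‖a (k - l)‖ ≤ (‖a l‖ * nm k) * ∑' l, ‖a l‖ :=
        mul_le_mul h2 h1 (norm_nonneg _) (mul_nonneg (norm_nonneg _) (nm_nonneg _))
    _ = nm k * (∑' l, ‖a l‖) * ‖a l‖ := by ring

theorem nl_sub_le {a b : K3 → E3} (ha : ∀ l, dt (kc l) (a l) = 0)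
    (hb : ∀ l, dt (kc l) (b l) = 0) (hsa : Summable fun l => ‖a l‖)
    (hsb : Summable fun l => ‖b l‖) {M : ℝ} (hM : ∀ l, ‖a l - b l‖ ≤ M) (k : K3) :
    ‖nl a k - nl b k‖ ≤ nm k * M * (∑' l, ‖a l‖ + ∑' l, ‖b l‖) := by
  rw [nl_eq ha, nl_eq hb, ← (summ hsa k).tsum_sub (summ hsb k)]
  have h1 : HasSum (fun l => ‖b (k - l)‖) (∑' l, ‖b l‖) := by
    have := (Equiv.subLeft k).hasSum_iff (f := fun l => ‖b l‖) (a := ∑' l, ‖b l‖)
    exact this.2 hsb.hasSum
  have h2 := (hsa.hasSum.add h1).mul_left (nm k * M)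
  refine tsum_of_norm_bounded h2 fun l => ?_
  have h3 : (Complex.I * dt (a l) (kc k)) • a (k - l) - (Complex.I * dt (b l) (kc k)) • b (k - l) =
      (Complex.I * dt (a l) (kc k)) • (a (k - l) - b (k - l)) +
        (Complex.I * dt (a l - b l) (kc k)) • b (k - l) := by
    rw [dt_sub_left]
    module
  rw [h3]
  refine (norm_add_le _ _).trans ?_
  rw [norm_smul, norm_smul, norm_mul, norm_mul, Complex.norm_I, one_mul, one_mul]
  have h4 := norm_dt_le (a l) (kc k)
  have h5 := norm_dt_le (a l - b l) (kc k)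
  rw [norm_kc] at h4 h5
  have h6 : ‖dt (a l) (kc k)‖ * ‖a (k - l) - b (k - l)‖ ≤ (‖a l‖ * nm k) * M :=
    mul_le_mul h4 (hM _) (norm_nonneg _) (mul_nonneg (norm_nonneg _) (nm_nonneg _))
  have h7 : ‖dt (a l - b l) (kc k)‖ ≤ M * nm k :=
    h5.trans (mul_le_mul_of_nonneg_right (hM l) (nm_nonneg _))
  have h8 : ‖dt (a l - b l) (kc k)‖ * ‖b (k - l)‖ ≤ (M * nm k) * ‖b (k - l)‖ :=
    mul_le_mul_of_nonneg_right h7 (norm_nonneg _)
  calc _ ≤ (‖a l‖ * nm k) * M + (M * nm k) * ‖b (k - l)‖ := add_le_add h6 h8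
    _ = nm k * M * (‖a l‖ + ‖b (k - l)‖) := by ring

/-- Duhamel's formula as an inequality. -/
theorem duhamel {u h : ℝ → E3} {s e lam F : ℝ} (hlam : 0 < lam)
    (hu : ∀ x ∈ Icc s e, HasDerivWithinAt u (-(lam • u x) + h x) (Ici x) x)
    (huc : ContinuousOn u (Icc s e)) (h0 : u s = 0) (hh : ∀ x ∈ Icc s e, ‖h x‖ ≤ F) :
    ∀ x ∈ Icc s e, ‖u x‖ ≤ F / lam * (1 - Real.exp (-(lam * (x - s)))) := by
  have hexp : ∀ x : ℝ, HasDerivAt (fun x => Real.exp (lam * (x - s)))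
      (lam * Real.exp (lam * (x - s))) x := by
    intro x
    have h1 : HasDerivAt (fun x : ℝ => lam * (x - s)) lam x := by
      simpa using ((hasDerivAt_id x).sub_const s).const_mul lam
    have h2 := h1.exp
    rwa [mul_comm] at h2
  have hB : ∀ x : ℝ, HasDerivAt (fun x => F / lam * (Real.exp (lam * (x - s)) - 1))
      (F * Real.exp (lam * (x - s))) x := by
    intro x
    have h1 := ((hexp x).sub_const 1).const_mul (F / lam)
    refine h1.congr_deriv ?_
    field_simp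
  have hf : ∀ x ∈ Ico s e, HasDerivWithinAt (fun x => Real.exp (lam * (x - s)) • u x)
      (Real.exp (lam * (x - s)) • h x) (Ici x) x := by
    intro x hx
    have h1 := (hexp x).hasDerivWithinAt (s := Ici x)
    have h2 := h1.smul (hu x (Ico_subset_Icc_self hx))
    refine h2.congr_deriv ?_
    rw [smul_add, smul_neg, smul_smul, mul_comm (Real.exp (lam * (x - s))) lam]
    abel
  have hfc : ContinuousOn (fun x => Real.exp (lam * (x - s)) • u x) (Icc s e) := by
    have hc : ContinuousOn (fun x : ℝ => Real.exp (lam * (x - s))) (Icc s e) :=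
      (by fun_prop : Continuous fun x : ℝ => Real.exp (lam * (x - s))).continuousOn
    exact hc.smul huc
  have key := image_norm_le_of_norm_deriv_right_le_deriv_boundary hfc hf
    (B := fun x => F / lam * (Real.exp (lam * (x - s)) - 1))
    (B' := fun x => F * Real.exp (lam * (x - s))) (by simp [h0]) hB (by
      intro x hx
      rw [norm_smul, Real.norm_eq_abs, abs_of_pos (Real.exp_pos _), mul_comm]
      exact mul_le_mul_of_nonneg_right (hh x (Ico_subset_Icc_self hx)) (Real.exp_pos _).le)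
  intro x hx
  have h1 := key hx
  rw [norm_smul, Real.norm_eq_abs, abs_of_pos (Real.exp_pos _)] at h1
  have h2 : Real.exp (-(lam * (x - s))) * Real.exp (lam * (x - s)) = 1 := by
    rw [← Real.exp_add]
    simp
  calc ‖u x‖ = Real.exp (-(lam * (x - s))) * (Real.exp (lam * (x - s)) * ‖u x‖) := by
        rw [← mul_assoc, h2, one_mul]
    _ ≤ Real.exp (-(lam * (x - s))) * (F / lam * (Real.exp (lam * (x - s)) - 1)) :=
        mul_le_mul_of_nonneg_left h1 (Real.exp_pos _).le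
    _ = F / lam * (Real.exp (-(lam * (x - s))) * Real.exp (lam * (x - s)) -
          Real.exp (-(lam * (x - s)))) := by ring
    _ = F / lam * (1 - Real.exp (-(lam * (x - s)))) := by rw [h2]

theorem one_sub_exp_sq {y : ℝ} (hy : 0 ≤ y) : (1 - Real.exp (-y)) ^ 2 ≤ y := by
  have h1 : 1 - y ≤ Real.exp (-y) := by
    have := Real.add_one_le_exp (-y)
    linarith
  have h2 : Real.exp (-y) ≤ 1 := Real.exp_le_one_iff.2 (by linarith)
  have h3 : 0 < Real.exp (-y) := Real.exp_pos _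
  nlinarith

theorem summ_of_bdd (hZ : Summable fun k : K3 => ((1 + nm k) ^ 4)⁻¹) {a : K3 → E3} {C0 C4 : ℝ}
    (h0 : ∀ k, nm k ^ 0 * ‖a k‖ ≤ C0) (h4 : ∀ k, nm k ^ 4 * ‖a k‖ ≤ C4) :
    (Summable fun k => ‖a k‖) ∧
      ∑' k, ‖a k‖ ≤ 8 * (C0 + C4) * ∑' k : K3, ((1 + nm k) ^ 4)⁻¹ := by
  have h1 : ∀ k, ‖a k‖ ≤ 8 * (C0 + C4) * ((1 + nm k) ^ 4)⁻¹ := by
    intro k
    have hx := nm_nonneg k
    have hp : 0 < (1 + nm k) ^ 4 := by positivity
    rw [← div_eq_mul_inv, le_div_iff₀ hp]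
    have e1 : (1 + nm k) ^ 4 ≤ 8 * (nm k ^ 0 + nm k ^ 4) := by
      rw [pow_zero]
      nlinarith [sq_nonneg (nm k - 1), sq_nonneg (nm k ^ 2 - 1), sq_nonneg (nm k * (nm k - 1)),
        mul_nonneg hx (sq_nonneg (nm k - 1))]
    calc ‖a k‖ * (1 + nm k) ^ 4 ≤ ‖a k‖ * (8 * (nm k ^ 0 + nm k ^ 4)) :=
          mul_le_mul_of_nonneg_left e1 (norm_nonneg _)
      _ = 8 * (nm k ^ 0 * ‖a k‖ + nm k ^ 4 * ‖a k‖) := by ring
      _ ≤ 8 * (C0 + C4) := by linarith [h0 k, h4 k]
  have hs : Summable fun k : K3 => 8 * (C0 + C4) * ((1 + nm k) ^ 4)⁻¹ := hZ.mul_left _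
  have hsa : Summable fun k => ‖a k‖ := Summable.of_nonneg_of_le (fun k => norm_nonneg _) h1 hs
  refine ⟨hsa, ?_⟩
  rw [← tsum_mul_left]
  exact hsa.tsum_le_tsum h1 hs

/-- UNIQ -/
theorem uniq (hD : S_DEC) (hL : S_LAT) : S_UNIQ := by
  intro α ν Λ a b hα hν hΛ ha hb hab T hT
  obtain ⟨-, -, -, -, hZ⟩ := hL
  set Z : ℝ := ∑' k : K3, ((1 + nm k) ^ 4)⁻¹ with hZdef
  -- divergence
  have hdiv : ∀ {c : ℝ → K3 → E3}, IsSol α ν Λ c → ∀ t, 0 ≤ t → ∀ l, dt (kc l) (c t l) = 0 := by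
    intro c hc t ht l
    have h1 := (hc.adm t ht).mem l
    rw [← h1]
    exact (hD Λ hΛ l (c t l) 0 0 true).2.2.1
  have hzero : ∀ {c : ℝ → K3 → E3}, IsSol α ν Λ c → ∀ t, 0 ≤ t → c t 0 = 0 := by
    intro c hc t ht
    have h1 := (hc.adm t ht).mem 0
    rw [← h1]
    exact (hD Λ hΛ 0 (c t 0) 0 0 true).2.2.2.2.2.2.2.1 (hΛ.zero true) (hΛ.zero false)
  have hdsub : ∀ k v w, dec Λ k v - dec Λ k w = dec Λ k (v - w) := by
    intro k v w
    have h1 := (hD Λ hΛ k v (-w) 0 true).1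
    have h2 := (hD Λ hΛ k w 0 (-1) true).2.1
    rw [neg_one_smul, neg_one_smul] at h2
    rw [sub_eq_add_neg v w, h1, h2, sub_eq_add_neg]
  have hdle : ∀ k v, ‖dec Λ k v‖ ≤ ‖v‖ := fun k v =>
    (hD Λ hΛ k v 0 0 true).2.2.2.2.2.2.1
  -- uniform bounds of the sums
  have hbd : ∀ {c : ℝ → K3 → E3}, IsSol α ν Λ c → ∃ A : ℝ, 0 ≤ A ∧ ∀ t ∈ Icc 0 T,
      (Summable fun k => ‖c t k‖) ∧ ∑' k, ‖c t k‖ ≤ A := by
    intro c hc
    obtain ⟨C0, hC0⟩ := hc.bdd T 0
    obtain ⟨C4, hC4⟩ := hc.bdd T 4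
    refine ⟨max 0 (8 * (C0 + C4) * Z), le_max_left _ _, fun t ht => ?_⟩
    obtain ⟨h1, h2⟩ := summ_of_bdd hZ (hC0 t ht) (hC4 t ht)
    exact ⟨h1, h2.trans (le_max_right _ _)⟩
  obtain ⟨A, hA0, hA⟩ := hbd ha
  obtain ⟨B, hB0, hB⟩ := hbd hb
  set K : ℝ := A + B + 1 with hK
  have hKpos : 0 < K := by positivity
  set τ : ℝ := ν / (4 * K ^ 2) with hτ
  have hτpos : 0 < τ := by positivity
  -- the half step
  have half : ∀ s e : ℝ, 0 ≤ s → e ≤ T → e - s ≤ τ → (∀ k, a s k = b s k) → ∀ M : ℝ,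
      (∀ x ∈ Icc s e, ∀ k, ‖a x k - b x k‖ ≤ M) → ∀ x ∈ Icc s e, ∀ k, ‖a x k - b x k‖ ≤ M / 2 := by
    intro s e hs he hse heq M hM x hx k
    have hM0 : 0 ≤ M := (norm_nonneg _).trans (hM x hx k)
    have hx0 : 0 ≤ x := hs.trans hx.1
    by_cases hk : k = 0
    · subst hk
      rw [hzero ha x hx0, hzero hb x hx0, sub_self, norm_zero]
      linarith
    have hk1 := one_le_nm hk
    have hk0 : 0 < nm k := by linarith
    set lam : ℝ := ν * nm k ^ (2 * α) with hlam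
    have hpow : nm k ^ 2 ≤ nm k ^ (2 * α) := by
      have := Real.rpow_le_rpow_of_exponent_le hk1 (show (2 : ℝ) ≤ 2 * α by linarith)
      rwa [Real.rpow_two] at this
    have hlampos : 0 < lam := by positivity
    have hlamge : ν * nm k ^ 2 ≤ lam := mul_le_mul_of_nonneg_left hpow hν.le
    have hsub : ∀ y ∈ Icc s e, y ∈ Icc 0 T := fun y hy => ⟨hs.trans hy.1, hy.2.trans he⟩
    have hder : ∀ y ∈ Icc s e, HasDerivWithinAt (fun τ => a τ k - b τ k)
        (-(lam • (a y k - b y k)) + -(dec Λ k (nl (a y) k) - dec Λ k (nl (b y) k)))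
        (Ici 0) y := by
      intro y hy
      have h1 := (ha.eqn y (hs.trans hy.1) k).sub (hb.eqn y (hs.trans hy.1) k)
      refine h1.congr_deriv ?_
      rw [Complex.coe_smul, Complex.coe_smul, ← hlam, smul_sub]
      abel
    have hd := duhamel (u := fun τ => a τ k - b τ k)
      (h := fun y => -(dec Λ k (nl (a y) k) - dec Λ k (nl (b y) k)))
      (s := s) (e := e) (F := nm k * M * K) hlampos
      (fun y hy => (hder y hy).mono (Ici_subset_Ici.2 (hs.trans hy.1)))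
      (fun y hy => ((hder y hy).continuousWithinAt).mono
        (fun z hz => hs.trans hz.1)) (by simp only [heq k, sub_self]) (by
        intro y hy
        rw [norm_neg, hdsub]
        refine (hdle _ _).trans ?_
        have h1 := nl_sub_le (hdiv ha y (hs.trans hy.1)) (hdiv hb y (hs.trans hy.1))
          (hA y (hsub y hy)).1 (hB y (hsub y hy)).1 (hM y hy) k
        refine h1.trans (mul_le_mul_of_nonneg_left ?_ (mul_nonneg hk0.le hM0))
        have h2 := (hA y (hsub y hy)).2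
        have h3 := (hB y (hsub y hy)).2
        rw [hK]
        linarith) x hx
    refine hd.trans ?_
    have hxs : 0 ≤ x - s := by linarith [hx.1]
    have hxs' : x - s ≤ τ := by linarith [hx.2]
    have hy0 : 0 ≤ lam * (x - s) := mul_nonneg hlampos.le hxs
    have h1 := one_sub_exp_sq hy0
    have h2 : 0 ≤ 1 - Real.exp (-(lam * (x - s))) := by
      have : Real.exp (-(lam * (x - s))) ≤ 1 := Real.exp_le_one_iff.2 (by linarith)
      linarith
    have hF0 : 0 ≤ nm k * M * K := by positivity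
    rw [← pow_le_pow_iff_left₀ (mul_nonneg (div_nonneg hF0 hlampos.le) h2)
      (by linarith : 0 ≤ M / 2) two_ne_zero]
    calc (nm k * M * K / lam * (1 - Real.exp (-(lam * (x - s))))) ^ 2
        = (nm k * M * K / lam) ^ 2 * (1 - Real.exp (-(lam * (x - s)))) ^ 2 := by ring
      _ ≤ (nm k * M * K / lam) ^ 2 * (lam * (x - s)) :=
          mul_le_mul_of_nonneg_left h1 (sq_nonneg _)
      _ = (nm k * M * K) ^ 2 * (x - s) / lam := by field_simp
      _ ≤ (nm k * M * K) ^ 2 * τ / lam := by gcongr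
      _ ≤ (nm k * M * K) ^ 2 * τ / (ν * nm k ^ 2) := by gcongr
      _ = (M / 2) ^ 2 := by
          rw [hτ]
          field_simp
          ring
  -- equality on short intervals
  have step : ∀ s e : ℝ, 0 ≤ s → e ≤ T → e - s ≤ τ → (∀ k, a s k = b s k) →
      ∀ x ∈ Icc s e, ∀ k, a x k = b x k := by
    intro s e hs he hse heq x hx k
    obtain ⟨C0, hC0⟩ := ha.bdd T 0
    obtain ⟨C0', hC0'⟩ := hb.bdd T 0
    have hM : ∀ n : ℕ, ∀ x ∈ Icc s e, ∀ k, ‖a x k - b x k‖ ≤ (C0 + C0') / 2 ^ n := by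
      intro n
      induction n with
      | zero =>
        intro x hx k
        have h1 := hC0 x ⟨hs.trans hx.1, hx.2.trans he⟩ k
        have h2 := hC0' x ⟨hs.trans hx.1, hx.2.trans he⟩ k
        rw [pow_zero, one_mul] at h1 h2
        rw [pow_zero, div_one]
        exact (norm_sub_le _ _).trans (add_le_add h1 h2)
      | succ n ih =>
        intro x hx k
        have h1 := half s e hs he hse heq _ ih x hx k
        rw [pow_succ]
        rwa [div_div] at h1
    have hlim : Tendsto (fun n : ℕ => (C0 + C0') / 2 ^ n) atTop (𝓝 0) :=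
      tendsto_const_nhds.div_atTop (tendsto_pow_atTop_atTop_of_one_lt (by norm_num : (1 : ℝ) < 2))
    have h1 : ‖a x k - b x k‖ ≤ 0 := ge_of_tendsto' hlim fun n => hM n x hx k
    exact sub_eq_zero.1 (norm_le_zero_iff.1 h1)
  -- induction
  have ind : ∀ n : ℕ, ∀ x, 0 ≤ x → x ≤ T → x ≤ n * τ → ∀ k, a x k = b x k := by
    intro n
    induction n with
    | zero =>
      intro x hx0 _ hx k
      have : x = 0 := by
        rw [Nat.cast_zero, zero_mul] at hx
        linarith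
      rw [this, hab]
    | succ n ih =>
      intro x hx0 hxT hx k
      by_cases hxn : x ≤ n * τ
      · exact ih x hx0 hxT hxn k
      · push Not at hxn
        have hn0 : 0 ≤ (n : ℝ) * τ := by positivity
        push_cast at hx
        exact step (n * τ) x hn0 hxT (by linarith)
          (fun k => ih (n * τ) hn0 (by linarith) le_rfl k) x ⟨hxn.le, le_rfl⟩ k
  obtain ⟨n, hn⟩ := exists_nat_ge (T / τ)
  have hTn : T ≤ n * τ := by
    rwa [div_le_iff₀ hτpos] at hn
  funext k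
  exact (ind n T hT le_rfl hTn k).symm

end Pool.Agent.W790.HD
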